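import Pool.Agent.X193.CHR.Upper
import Pool.Agent.X193.CHR.Lower
import Pool.Agent.X193.CHR.Lift

/-!
# MP_369bda_lc: chromatic memory over one-player games and over all games

The objective `W3` (two different of three colours occur infinitely often) has chromatic memory
`2` over one-player games and `3` over all games. In the second part the memory structure is fixed:
the one-to-two-player lift for a fixed chromatic memory structure is reduced to the lift for
positional strategies and a product objective which is again `ω`-regular.
-/

set_option autoImplicit false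

universe u

namespace Pool.Agent.Results.MP_369bda_lc.TwoVersusThree

open Pool.Agent.X193.CHR

theorem result :
    OmegaRegular W3 ∧
    ChromaticMemory (fun G : Game.{u} (Fin 3) => G.OnePlayer) W3 2 ∧
    ChromaticMemory (fun _ : Game.{u} (Fin 3) => True) W3 3 ∧
    ChromaticMemory (fun G : Game.{u} (Fin 3) => G.OnePlayer ∧ Finite G.V) W3 2 ∧
    ChromaticMemory (fun G : Game.{u} (Fin 3) => Finite G.V) W3 3 ∧
    ∀ (C : Type) (W : Set (ℕ → C)) (M : Type) (m₀ : M) (μ : M → C → M), Finite M →
      (OmegaRegular W → OmegaRegular (lift W M m₀ μ)) ∧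
      ((∀ G : Game.{u} C, G.OnePlayer → G.EveWins W → G.WinsWith W M m₀ μ) →
        ∀ G : Game.{u} (M × C), G.OnePlayer → G.EveWins (lift W M m₀ μ) →
          G.PositionalWins (lift W M m₀ μ)) ∧
      ((∀ G : Game.{u} (M × C), G.EveWins (lift W M m₀ μ) →
          G.PositionalWins (lift W M m₀ μ)) →
        ∀ G : Game.{u} C, G.EveWins W → G.WinsWith W M m₀ μ) := by
  refine ⟨W3_regular, ⟨fun G h1 h => upper_two G h1 h, fun k hk => ?_⟩,
    ⟨fun G _ h => upper_three G h, fun k hk => ?_⟩,
    ⟨fun G h1 h => upper_two G h1.1 h, fun k hk => ?_⟩,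
    ⟨fun G _ h => upper_three G h, fun k hk => ?_⟩,
    fun C W M m₀ μ _ => ⟨fun h => lift_regular h M m₀ μ, fun h => lift_onePlayer W M m₀ μ h,
      fun h => lift_all W M m₀ μ h⟩⟩
  · by_contra hlt
    exact loops_not (ChromaticWins.mono (by omega) (hk loops (fun _ => trivial) loops_wins))
  · by_contra hlt
    exact hubs_not (ChromaticWins.mono (by omega) (hk hubs trivial hubs_wins))
  · by_contra hlt
    exact loops_not (ChromaticWins.mono (by omega)
      (hk loops ⟨fun _ => trivial, inferInstanceAs (Finite PUnit)⟩ loops_wins))
  · by_contra hlt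
    exact hubs_not (ChromaticWins.mono (by omega) (hk hubs hubs_finite hubs_wins))

end Pool.Agent.Results.MP_369bda_lc.TwoVersusThree
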